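import Mathlib

/-!
Bilinear growth in `ZMod p` by elementary double counting (no characters):
`|C + A·B| ≥ min(p/2, |A||B||C|/(4p))`.
-/

open Finset

namespace Pool.Agent.Helper24.UF

variable {p : ℕ} [hp : Fact p.Prime]

/-- Number of solutions `x` of `c + a x = c' + a' x`. -/
theorem sum_indicator_le (a c a' c' : ZMod p) :
    (∑ x : ZMod p, if c + a * x = c' + a' * x then (1 : ℝ) else 0) ≤
      (if (a, c) = (a', c') then (p : ℝ) else 0) + 1 := by
  haveI : NeZero p := ⟨hp.out.ne_zero⟩
  by_cases h : (a, c) = (a', c')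
  · rw [if_pos h]
    have h1 : (∑ x : ZMod p, if c + a * x = c' + a' * x then (1 : ℝ) else 0) ≤
        ∑ _x : ZMod p, (1 : ℝ) := by
      refine sum_le_sum fun x _ => ?_
      split_ifs <;> norm_num
    have h2 : ∑ _x : ZMod p, (1 : ℝ) = p := by simp [ZMod.card]
    linarith
  · rw [if_neg h, zero_add]
    have h1 : (∑ x : ZMod p, if c + a * x = c' + a' * x then (1 : ℝ) else 0) =
        ((univ.filter fun x : ZMod p => c + a * x = c' + a' * x).card : ℝ) := by
      rw [← Finset.sum_filter]; simp
    rw [h1]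
    have h2 : (univ.filter fun x : ZMod p => c + a * x = c' + a' * x).card ≤ 1 := by
      rw [Finset.card_le_one]
      intro x hx y hy
      simp only [mem_filter, mem_univ, true_and] at hx hy
      by_contra hxy
      have h3 : (a - a') * (x - y) = 0 := by linear_combination hx - hy
      rcases mul_eq_zero.1 h3 with h4 | h4
      · have ha : a = a' := sub_eq_zero.1 h4
        subst ha
        have : c = c' := by linear_combination hx
        exact h (by rw [this])
      · exact hxy (sub_eq_zero.1 h4)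
    exact_mod_cast h2

theorem growth (A B C D : Finset (ZMod p))
    (hD : ∀ a ∈ A, ∀ b ∈ B, ∀ c ∈ C, c + a * b ∈ D) (h2 : 2 * D.card ≤ p) :
    A.card * B.card * C.card ≤ 4 * p * D.card := by
  classical
  haveI : NeZero p := ⟨hp.out.ne_zero⟩
  have hp0 : (0 : ℝ) < p := by exact_mod_cast hp.out.pos
  set ν : ZMod p → ZMod p → ℝ := fun x y =>
    ∑ t ∈ A ×ˢ C, if t.2 + t.1 * x = y then (1 : ℝ) else 0 with hν
  set W : ℝ := A.card * C.card with hW
  have hW0 : 0 ≤ W := by positivity
  set μ : ℝ := W / p with hμ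
  -- first moment
  have hfirst : ∀ x, ∑ y, ν x y = W := by
    intro x
    rw [hν]
    simp only
    rw [sum_comm]
    simp [hW]
  -- second moment
  have hsecond : ∑ x, ∑ y, ν x y ^ 2 ≤ p * W + W ^ 2 := by
    have h1 : ∀ x, ∑ y, ν x y ^ 2 = ∑ t ∈ A ×ˢ C, ∑ t' ∈ A ×ˢ C,
        if t.2 + t.1 * x = t'.2 + t'.1 * x then (1 : ℝ) else 0 := by
      intro x
      have h2 : ∀ y, ν x y ^ 2 = ∑ t ∈ A ×ˢ C, ∑ t' ∈ A ×ˢ C,
          (if t.2 + t.1 * x = y then (1 : ℝ) else 0) *
            (if t'.2 + t'.1 * x = y then (1 : ℝ) else 0) := by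
        intro y
        rw [sq, hν]
        simp only
        rw [sum_mul_sum]
      simp_rw [h2]
      rw [sum_comm]
      refine sum_congr rfl fun t _ => ?_
      rw [sum_comm]
      refine sum_congr rfl fun t' _ => ?_
      rw [Finset.sum_eq_single (t.2 + t.1 * x)]
      · simp only [if_true, one_mul]
        by_cases h : t.2 + t.1 * x = t'.2 + t'.1 * x
        · rw [if_pos h.symm, if_pos h]
        · rw [if_neg (fun h' => h h'.symm), if_neg h]
      · intro y _ hy
        rw [if_neg (fun h => hy h.symm), zero_mul]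
      · intro h; exact absurd (mem_univ _) h
    simp_rw [h1]
    rw [sum_comm]
    have h3 : ∀ t ∈ A ×ˢ C, ∑ x : ZMod p, ∑ t' ∈ A ×ˢ C,
        (if t.2 + t.1 * x = t'.2 + t'.1 * x then (1 : ℝ) else 0) ≤ p + W := by
      intro t ht
      rw [sum_comm]
      calc ∑ t' ∈ A ×ˢ C, ∑ x : ZMod p,
            (if t.2 + t.1 * x = t'.2 + t'.1 * x then (1 : ℝ) else 0)
          ≤ ∑ t' ∈ A ×ˢ C, ((if (t.1, t.2) = (t'.1, t'.2) then (p : ℝ) else 0) + 1) :=
            sum_le_sum fun t' _ => sum_indicator_le _ _ _ _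
        _ = p + W := by
            rw [sum_add_distrib]
            congr 1
            · rw [Finset.sum_eq_single t]
              · simp
              · intro t' _ hne
                rw [if_neg]
                intro h
                exact hne (by ext1 <;> simp_all)
              · intro h; exact absurd ht h
            · simp [hW]
    calc ∑ t ∈ A ×ˢ C, ∑ x : ZMod p, ∑ t' ∈ A ×ˢ C,
          (if t.2 + t.1 * x = t'.2 + t'.1 * x then (1 : ℝ) else 0)
        ≤ ∑ t ∈ A ×ˢ C, (p + W) := sum_le_sum h3
      _ = p * W + W ^ 2 := by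
          rw [sum_const, card_product, nsmul_eq_mul]
          push_cast
          rw [← hW]; ring
  have hvar : ∑ x, ∑ y, (ν x y - μ) ^ 2 ≤ p * W := by
    have h1 : ∀ x, ∑ y, (ν x y - μ) ^ 2 = ∑ y, ν x y ^ 2 - 2 * μ * W + p * μ ^ 2 := by
      intro x
      have : ∀ y, (ν x y - μ) ^ 2 = ν x y ^ 2 - 2 * μ * ν x y + μ ^ 2 := fun y => by ring
      simp_rw [this]
      rw [sum_add_distrib, sum_sub_distrib, ← mul_sum, hfirst x]
      simp [ZMod.card]
    simp_rw [h1]
    rw [sum_add_distrib, sum_sub_distrib]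
    simp only [sum_const, card_univ, ZMod.card, nsmul_eq_mul]
    have e : (p : ℝ) * (2 * μ * W) = 2 * W ^ 2 := by
      rw [hμ]; field_simp
    have e2 : (p : ℝ) * (p * μ ^ 2) = W ^ 2 := by
      rw [hμ]; field_simp
    rw [e, e2]
    linarith
  -- the sum over B × D
  have hT : ∑ x ∈ B, ∑ y ∈ D, ν x y = B.card * W := by
    have : ∀ x ∈ B, ∑ y ∈ D, ν x y = W := by
      intro x hx
      rw [← hfirst x]
      refine sum_subset (subset_univ D) ?_
      intro y _ hy
      rw [hν]
      refine sum_eq_zero fun t ht => ?_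
      rw [mem_product] at ht
      rw [if_neg]
      rintro rfl
      exact hy (hD _ ht.1 _ hx _ ht.2)
    rw [sum_congr rfl this]
    simp
  set T : ℝ := B.card * W with hTdef
  have hT0 : 0 ≤ T := by positivity
  have hE : ∑ z ∈ B ×ˢ D, (ν z.1 z.2 - μ) = T - B.card * D.card * μ := by
    rw [sum_sub_distrib, sum_product, hT]
    simp
  have hCS := sq_sum_le_card_mul_sum_sq (s := B ×ˢ D) (f := fun z => ν z.1 z.2 - μ)
  rw [hE] at hCS
  have hsub : ∑ z ∈ B ×ˢ D, (ν z.1 z.2 - μ) ^ 2 ≤ p * W := by
    refine le_trans ?_ hvar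
    rw [← sum_product']
    refine sum_le_sum_of_subset_of_nonneg ?_ fun _ _ _ => sq_nonneg _
    intro z _
    simp
  have hcard : ((B ×ˢ D).card : ℝ) = B.card * D.card := by
    rw [card_product]; push_cast; ring
  rw [hcard] at hCS
  have h2' : (2 : ℝ) * D.card ≤ p := by exact_mod_cast h2
  have hμT : B.card * D.card * μ ≤ T / 2 := by
    rw [hμ, hTdef]
    rw [mul_div_assoc', div_le_div_iff₀ hp0 (by norm_num)]
    have : (0 : ℝ) ≤ B.card * W := hT0
    nlinarith
  have hmain : (T / 2) ^ 2 ≤ (B.card * D.card) * (p * W) := by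
    calc (T / 2) ^ 2 ≤ (T - B.card * D.card * μ) ^ 2 := by
          apply pow_le_pow_left₀ (by positivity)
          linarith
      _ ≤ _ := hCS
      _ ≤ _ := by gcongr
  have hfin : T ≤ 4 * p * D.card := by
    rcases hT0.eq_or_lt with h0 | hpos
    · rw [← h0]; positivity
    · have : T * T ≤ (4 * p * D.card) * T := by
        have e : (B.card * D.card : ℝ) * (p * W) = p * D.card * T := by rw [hTdef]; ring
        rw [e] at hmain
        nlinarith
      exact le_of_mul_le_mul_right this hpos
  have : ((A.card * B.card * C.card : ℕ) : ℝ) ≤ ((4 * p * D.card : ℕ) : ℝ) := by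
    push_cast
    rw [hTdef, hW] at hfin
    linarith
  exact_mod_cast this

/-- Two sets of total size more than `p` have sumset everything. -/
theorem exists_add_of_card (C C' : Finset (ZMod p)) (h : p < C.card + C'.card) (x : ZMod p) :
    ∃ c ∈ C, ∃ c' ∈ C', c + c' = x := by
  classical
  haveI : NeZero p := ⟨hp.out.ne_zero⟩
  by_contra hcon
  push Not at hcon
  have hdisj : Disjoint C (C'.image fun c' => x - c') := by
    rw [Finset.disjoint_left]
    intro c hc hc'
    rw [mem_image] at hc'
    obtain ⟨c', hc', rfl⟩ := hc'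
    exact hcon _ hc _ hc' (by ring)
  have h1 : (C'.image fun c' => x - c').card = C'.card :=
    card_image_of_injective _ (sub_right_injective)
  have h2 := card_union_of_disjoint hdisj
  have h3 : (C ∪ C'.image fun c' => x - c').card ≤ p := by
    have := card_le_univ (C ∪ C'.image fun c' => x - c')
    rwa [ZMod.card] at this
  omega

end Pool.Agent.Helper24.UF
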