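import Mathlib
import Pool.Agent.Helper24.UF.Growth

/-!
Every residue mod `p` is a bounded sum of distinct inverses `1/(uv)`, `u ≠ v` small primes.
-/

open Finset

namespace Pool.Agent.Helper24.UF

/-- `∑_{u ∈ F} ∏_{w ∈ S, w ≠ u} w`. -/
def esum (F S : Finset ℕ) : ℕ := ∑ u ∈ F, ∏ w ∈ S.erase u, w

theorem esum_cast {p : ℕ} [hp : Fact p.Prime] {F S : Finset ℕ} (hFS : F ⊆ S)
    (hS : ∀ u ∈ S, (u : ZMod p) ≠ 0) :
    (esum F S : ZMod p) = (∏ w ∈ S, (w : ZMod p)) * ∑ u ∈ F, (u : ZMod p)⁻¹ := by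
  rw [esum, mul_sum]
  push_cast
  refine sum_congr rfl fun u hu => ?_
  rw [← mul_prod_erase S (fun w => (w : ZMod p)) (hFS hu)]
  have := hS u (hFS hu)
  field_simp

theorem esum_le {F S : Finset ℕ} {X l : ℕ} (hFS : F ⊆ S) (hS : ∀ u ∈ S, u ≤ X)
    (hF : F.card ≤ l) (hcard : S.card ≤ 2 * l) (hX : 1 ≤ X) :
    esum F S ≤ l * X ^ (2 * l - 1) := by
  rw [esum]
  calc ∑ u ∈ F, ∏ w ∈ S.erase u, w ≤ ∑ u ∈ F, X ^ (2 * l - 1) := by
        refine sum_le_sum fun u hu => ?_
        calc ∏ w ∈ S.erase u, w ≤ ∏ w ∈ S.erase u, X :=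
              prod_le_prod' fun w hw => hS w (mem_of_mem_erase hw)
          _ = X ^ (S.card - 1) := by rw [prod_const, card_erase_of_mem (hFS hu)]
          _ ≤ X ^ (2 * l - 1) := Nat.pow_le_pow_right hX (by omega)
    _ = F.card * X ^ (2 * l - 1) := by rw [sum_const, smul_eq_mul]
    _ ≤ _ := Nat.mul_le_mul_right _ hF

theorem inv_sum_injective {p : ℕ} [hp : Fact p.Prime] {k X : ℕ}
    (hX : k * X ^ (2 * k - 1) < p) {F G : Finset ℕ}
    (hF : ∀ u ∈ F, u.Prime ∧ u ≤ X) (hG : ∀ u ∈ G, u.Prime ∧ u ≤ X)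
    (hFk : F.card = k) (hGk : G.card = k)
    (h : ∑ u ∈ F, (u : ZMod p)⁻¹ = ∑ u ∈ G, (u : ZMod p)⁻¹) : F = G := by
  classical
  by_contra hne
  set F' := F \ G with hF'
  set G' := G \ F with hG'
  have hF'ne : F'.Nonempty := by
    rw [hF', sdiff_nonempty]
    intro hsub
    exact hne (eq_of_subset_of_card_le hsub (by omega))
  obtain ⟨u, hu⟩ := hF'ne
  have huF : u ∈ F := (mem_sdiff.1 hu).1
  have huG : u ∉ G := (mem_sdiff.1 hu).2
  have hk : 1 ≤ k := by
    rw [← hFk]; exact Finset.card_pos.2 ⟨u, huF⟩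
  have hX1 : 1 ≤ X := (hF u huF).1.one_lt.le.trans (hF u huF).2
  have hXp : X < p := by
    calc X = 1 * X ^ 1 := by ring
      _ ≤ k * X ^ (2 * k - 1) :=
        Nat.mul_le_mul hk (Nat.pow_le_pow_right hX1 (by omega))
      _ < p := hX
  set S := F' ∪ G' with hS
  have hSle : ∀ w ∈ S, w.Prime ∧ w ≤ X := by
    intro w hw
    rcases mem_union.1 hw with h1 | h1
    · exact hF w (mem_sdiff.1 h1).1
    · exact hG w (mem_sdiff.1 h1).1
  have hS0 : ∀ w ∈ S, (w : ZMod p) ≠ 0 := by
    intro w hw h0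
    rw [ZMod.natCast_eq_zero_iff] at h0
    have h1 := hSle w hw
    exact absurd (Nat.le_of_dvd h1.1.pos h0) (by omega)
  have hcardF' : F'.card ≤ k := (card_le_card sdiff_subset).trans hFk.le
  have hcardG' : G'.card ≤ k := (card_le_card sdiff_subset).trans hGk.le
  have hcardS : S.card ≤ 2 * k := (card_union_le _ _).trans (by omega)
  have hsum : ∑ u ∈ F', (u : ZMod p)⁻¹ = ∑ u ∈ G', (u : ZMod p)⁻¹ := by
    have h1 := sum_sdiff (s₂ := F) (s₁ := F ∩ G) (f := fun u : ℕ => (u : ZMod p)⁻¹)
      inter_subset_left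
    have h2 := sum_sdiff (s₂ := G) (s₁ := F ∩ G) (f := fun u : ℕ => (u : ZMod p)⁻¹)
      inter_subset_right
    have e1 : F \ (F ∩ G) = F' := by ext w; simp [hF']
    have e2 : G \ (F ∩ G) = G' := by
      ext w; simp only [mem_sdiff, mem_inter, hG']; tauto
    rw [e1] at h1
    rw [e2] at h2
    rw [← h1, ← h2] at h
    exact add_right_cancel h
  have hcast : (esum F' S : ZMod p) = (esum G' S : ZMod p) := by
    rw [esum_cast subset_union_left hS0, esum_cast subset_union_right hS0, hsum]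
  have hleF := esum_le (l := k) (subset_union_left : F' ⊆ S) (fun w hw => (hSle w hw).2)
    hcardF' hcardS hX1
  have hleG := esum_le (l := k) (subset_union_right : G' ⊆ S) (fun w hw => (hSle w hw).2)
    hcardG' hcardS hX1
  have heq : esum F' S = esum G' S := by
    rw [ZMod.natCast_eq_natCast_iff] at hcast
    exact Nat.ModEq.eq_of_lt_of_lt hcast (hleF.trans_lt hX) (hleG.trans_lt hX)
  have huS : u ∈ S := mem_union_left _ hu
  have hup := (hSle u huS).1
  -- u divides the right side
  have hdvd : u ∣ esum G' S := by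
    rw [esum]
    refine dvd_sum fun w hw => ?_
    refine dvd_prod_of_mem (fun w => w) (mem_erase.2 ⟨?_, huS⟩)
    rintro rfl
    exact huG (mem_sdiff.1 hw).1
  rw [← heq, esum, ← add_sum_erase F' _ hu] at hdvd
  have hdvd2 : u ∣ ∑ x ∈ F'.erase u, ∏ w ∈ S.erase x, w := by
    refine dvd_sum fun w hw => ?_
    refine dvd_prod_of_mem (fun w => w) (mem_erase.2 ⟨?_, huS⟩)
    exact (mem_erase.1 hw).1.symm
  have hdvd3 : u ∣ ∏ w ∈ S.erase u, w := (Nat.dvd_add_left hdvd2).1 hdvd
  rw [Prime.dvd_finsetProd_iff hup.prime] at hdvd3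
  obtain ⟨w, hw, hw2⟩ := hdvd3
  have := (Nat.prime_dvd_prime_iff_eq hup (hSle w (mem_of_mem_erase hw)).1).1 hw2
  exact (mem_erase.1 hw).1 this.symm

/-- The set of `k`-fold inverse sums. -/
noncomputable def invSums (p k : ℕ) (U : Finset ℕ) : Finset (ZMod p) := by
  classical
  exact (U.powersetCard k).image fun F : Finset ℕ => ∑ u ∈ F, ((u : ℕ) : ZMod p)⁻¹

theorem card_invSums {p : ℕ} [hp : Fact p.Prime] {k X : ℕ}
    (hX : k * X ^ (2 * k - 1) < p) {U : Finset ℕ} (hU : ∀ u ∈ U, u.Prime ∧ u ≤ X) :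
    (invSums p k U).card = U.card.choose k := by
  classical
  rw [invSums, card_image_of_injOn, card_powersetCard]
  intro F hF G hG h
  rw [mem_coe, mem_powersetCard] at hF hG
  exact inv_sum_injective hX (fun u hu => hU u (hF.1 hu)) (fun u hu => hU u (hG.1 hu)) hF.2 hG.2 h

theorem repr_step {p k X m g : ℕ} [hp : Fact p.Prime]
    (hX : k * X ^ (2 * k - 1) < p) (hXp : X < p) (hg : 4 * p * g ≤ (m.choose k) ^ 2) (s : ℕ) :
    ∀ P : Finset ℕ, (∀ u ∈ P, u.Prime ∧ u ≤ X) → 2 * m * s ≤ P.card →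
    ∃ C : Finset (ZMod p), (p ≤ 2 * C.card ∨ g ^ s ≤ C.card) ∧
      ∀ c ∈ C, ∃ S : Finset ℕ, (∀ j ∈ S, ∃ u ∈ P, ∃ v ∈ P, u ≠ v ∧ j = u * v) ∧
        S.card ≤ k ^ 2 * s ∧ ∑ j ∈ S, (j : ZMod p)⁻¹ = c := by
  classical
  induction s with
  | zero =>
    intro P _ _
    refine ⟨{0}, Or.inr (by simp), fun c hc => ⟨∅, by simp, by simp, ?_⟩⟩
    rw [mem_singleton] at hc
    simp [hc]
  | succ s ih =>
    intro P hP hcard
    have e0 : 2 * m * (s + 1) = 2 * (m * s) + 2 * m := by ring
    rw [e0] at hcard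
    obtain ⟨U, hUP, hUm⟩ := exists_subset_card_eq (s := P) (n := m) (by omega)
    have h1 : m ≤ (P \ U).card := by
      rw [card_sdiff_of_subset hUP]; omega
    obtain ⟨V, hVP, hVm⟩ := exists_subset_card_eq h1
    set P' := (P \ U) \ V with hP'
    have hP'P : P' ⊆ P := (sdiff_subset.trans sdiff_subset)
    have hP'card : 2 * m * s ≤ P'.card := by
      rw [hP', card_sdiff_of_subset hVP, card_sdiff_of_subset hUP]
      have : 2 * m * s = 2 * (m * s) := by ring
      omega
    obtain ⟨C', hC'card, hC'⟩ := ih P' (fun u hu => hP u (hP'P hu)) hP'card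
    have hUX : ∀ u ∈ U, u.Prime ∧ u ≤ X := fun u hu => hP u (hUP hu)
    have hVX : ∀ u ∈ V, u.Prime ∧ u ≤ X := fun u hu => hP u (sdiff_subset (hVP hu))
    set A := invSums p k U with hA
    set B := invSums p k V with hB
    have hAc : A.card = m.choose k := by rw [hA, card_invSums hX hUX, hUm]
    have hBc : B.card = m.choose k := by rw [hB, card_invSums hX hVX, hVm]
    set D : Finset (ZMod p) := (A ×ˢ (B ×ˢ C')).image fun t => t.2.2 + t.1 * t.2.1 with hD
    have hDmem : ∀ a ∈ A, ∀ b ∈ B, ∀ c ∈ C', c + a * b ∈ D := by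
      intro a ha b hb c hc
      rw [hD, mem_image]
      exact ⟨(a, (b, c)), by simp [ha, hb, hc], rfl⟩
    have hp0 := hp.out.pos
    refine ⟨D, ?_, ?_⟩
    · by_cases h2 : 2 * D.card < p
      · right
        have hgr := growth A B C' D hDmem h2.le
        rw [hAc, hBc] at hgr
        rcases hC'card with h3 | h3
        · rcases Nat.eq_zero_or_pos (m.choose k) with h4 | h4
          · rw [h4] at hg
            have hg0 : g = 0 := by
              by_contra hg0
              have h5 : 1 ≤ 4 * p * g := Nat.mul_pos (by omega) (Nat.pos_of_ne_zero hg0)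
              simp at hg
              omega
            rw [hg0]; simp
          · exfalso
            obtain ⟨a, ha⟩ := Finset.card_pos.1 (hAc ▸ h4)
            obtain ⟨b, hb⟩ := Finset.card_pos.1 (hBc ▸ h4)
            have hsub : C'.image (fun c => c + a * b) ⊆ D := by
              intro x hx
              rw [mem_image] at hx
              obtain ⟨c, hc, rfl⟩ := hx
              exact hDmem a ha b hb c hc
            have h5 := card_le_card hsub
            rw [card_image_of_injective _ (add_left_injective _)] at h5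
            omega
        · have h5 : 4 * p * (g ^ (s + 1)) ≤ 4 * p * D.card := by
            calc 4 * p * (g ^ (s + 1)) = (4 * p * g) * g ^ s := by ring
              _ ≤ (m.choose k) ^ 2 * C'.card := Nat.mul_le_mul hg h3
              _ = m.choose k * m.choose k * C'.card := by ring
              _ ≤ _ := hgr
          exact Nat.le_of_mul_le_mul_left h5 (by omega)
      · left; omega
    · intro c hc
      rw [hD, mem_image] at hc
      obtain ⟨⟨a, b, c'⟩, ht, rfl⟩ := hc
      simp only [mem_product] at ht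
      obtain ⟨ha, hb, hc'⟩ := ht
      rw [hA, invSums, mem_image] at ha
      rw [hB, invSums, mem_image] at hb
      obtain ⟨F, hF, rfl⟩ := ha
      obtain ⟨G, hG, rfl⟩ := hb
      rw [mem_powersetCard] at hF hG
      obtain ⟨S', hS'1, hS'2, hS'3⟩ := hC' c' hc'
      set S₀ := (F ×ˢ G).image fun t => t.1 * t.2 with hS₀
      have hFU : ∀ u ∈ F, u ∈ U := fun u hu => hF.1 hu
      have hGV : ∀ v ∈ G, v ∈ V := fun v hv => hG.1 hv
      have hUV : ∀ u ∈ U, ∀ v ∈ V, u ≠ v := by
        rintro u hu v hv rfl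
        exact (mem_sdiff.1 (hVP hv)).2 hu
      have hdisj : Disjoint S' S₀ := by
        rw [Finset.disjoint_left]
        intro j hj hj0
        obtain ⟨u', hu', v', hv', hne', rfl⟩ := hS'1 j hj
        rw [hS₀, mem_image] at hj0
        obtain ⟨⟨u, v⟩, ht, hEq⟩ := hj0
        rw [mem_product] at ht
        simp only at ht hEq
        have huP' : u ∉ P' := by
          intro h
          exact (mem_sdiff.1 (mem_sdiff.1 h).1).2 (hFU u ht.1)
        have hup := (hUX u (hFU u ht.1)).1
        have hdv : u ∣ u' * v' := by rw [← hEq]; exact dvd_mul_right u v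
        rcases (Nat.Prime.dvd_mul hup).1 hdv with h | h
        · have := (Nat.prime_dvd_prime_iff_eq hup (hP u' (hP'P hu')).1).1 h
          exact huP' (this ▸ hu')
        · have := (Nat.prime_dvd_prime_iff_eq hup (hP v' (hP'P hv')).1).1 h
          exact huP' (this ▸ hv')
      have hinj : Set.InjOn (fun t : ℕ × ℕ => t.1 * t.2) (F ×ˢ G : Finset (ℕ × ℕ)) := by
        rintro ⟨u, v⟩ h1 ⟨u', v'⟩ h2 heq
        rw [mem_coe, mem_product] at h1 h2
        simp only at h1 h2 heq
        have hup := (hUX u (hFU u h1.1)).1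
        have hup' := (hUX u' (hFU u' h2.1)).1
        have hdv : u ∣ u' * v' := by rw [← heq]; exact dvd_mul_right u v
        have huu' : u = u' := by
          rcases (Nat.Prime.dvd_mul hup).1 hdv with h | h
          · exact (Nat.prime_dvd_prime_iff_eq hup hup').1 h
          · have := (Nat.prime_dvd_prime_iff_eq hup (hVX v' (hGV v' h2.2)).1).1 h
            exact absurd this (hUV u (hFU u h1.1) v' (hGV v' h2.2))
        subst huu'
        have : v = v' := Nat.eq_of_mul_eq_mul_left hup.pos heq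
        rw [this]
      refine ⟨S' ∪ S₀, ?_, ?_, ?_⟩
      · intro j hj
        rcases mem_union.1 hj with hj | hj
        · obtain ⟨u', hu', v', hv', hne', rfl⟩ := hS'1 j hj
          exact ⟨u', hP'P hu', v', hP'P hv', hne', rfl⟩
        · rw [hS₀, mem_image] at hj
          obtain ⟨⟨u, v⟩, ht, rfl⟩ := hj
          rw [mem_product] at ht
          exact ⟨u, hUP (hFU u ht.1), v, sdiff_subset (hVP (hGV v ht.2)),
            hUV u (hFU u ht.1) v (hGV v ht.2), rfl⟩
      · rw [card_union_of_disjoint hdisj]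
        have : S₀.card ≤ k ^ 2 := by
          refine card_image_le.trans ?_
          rw [card_product, hF.2, hG.2, sq]
        have e : k ^ 2 * (s + 1) = k ^ 2 * s + k ^ 2 := by ring
        omega
      · rw [sum_union hdisj, hS'3, hS₀, sum_image hinj]
        simp only
        congr 1
        rw [sum_mul_sum, sum_product]
        refine sum_congr rfl fun u _ => sum_congr rfl fun v _ => ?_
        push_cast
        rw [mul_inv]

end Pool.Agent.Helper24.UF
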