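import Mathlib
import Pool.Agent.Helper24.UF.KSums

open Finset Filter Real

namespace Pool.Agent.Helper24.UF

/-- Full covering from two halves. -/
theorem repr_all {p k X m g s : ℕ} [hp : Fact p.Prime] (hp2 : p ≠ 2)
    (hX : k * X ^ (2 * k - 1) < p) (hXp : X < p) (hg : 4 * p * g ≤ (m.choose k) ^ 2)
    (hgs : p ≤ g ^ s) (P : Finset ℕ) (hP : ∀ u ∈ P, u.Prime ∧ u ≤ X)
    (hcard : 4 * m * s ≤ P.card) (c : ZMod p) :
    ∃ S : Finset ℕ, (∀ j ∈ S, ∃ u ∈ P, ∃ v ∈ P, u ≠ v ∧ j = u * v) ∧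
      S.card ≤ 2 * k ^ 2 * s ∧ ∑ j ∈ S, (j : ZMod p)⁻¹ = c := by
  classical
  have e0 : 4 * m * s = 2 * m * s + 2 * m * s := by ring
  rw [e0] at hcard
  obtain ⟨P₁, hP₁, hc₁⟩ := exists_subset_card_eq (s := P) (n := 2 * m * s) (by omega)
  obtain ⟨C₁, hC₁, h₁⟩ := repr_step hX hXp hg s P₁ (fun u hu => hP u (hP₁ hu)) hc₁.ge
  obtain ⟨C₂, hC₂, h₂⟩ := repr_step hX hXp hg s (P \ P₁)
    (fun u hu => hP u (sdiff_subset hu)) (by rw [card_sdiff_of_subset hP₁]; omega)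
  have hodd : p % 2 = 1 := (hp.out.eq_two_or_odd).resolve_left hp2
  have hp0 := hp.out.pos
  have hb₁ : p + 1 ≤ 2 * C₁.card := by
    rcases hC₁ with h | h <;> omega
  have hb₂ : p + 1 ≤ 2 * C₂.card := by
    rcases hC₂ with h | h <;> omega
  obtain ⟨c₁, hc₁', c₂, hc₂', hc⟩ := exists_add_of_card C₁ C₂ (by omega) c
  obtain ⟨S₁, hS₁, hS₁c, hS₁s⟩ := h₁ c₁ hc₁'
  obtain ⟨S₂, hS₂, hS₂c, hS₂s⟩ := h₂ c₂ hc₂'
  have hdisj : Disjoint S₁ S₂ := by
    rw [Finset.disjoint_left]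
    intro j hj hj0
    obtain ⟨u', hu', v', hv', hne', rfl⟩ := hS₁ j hj
    obtain ⟨u, hu, v, hv, hne, hEq⟩ := hS₂ _ hj0
    have hup := (hP u (sdiff_subset hu)).1
    have hdv : u ∣ u' * v' := by rw [hEq]; exact dvd_mul_right u v
    rcases (Nat.Prime.dvd_mul hup).1 hdv with h | h
    · have := (Nat.prime_dvd_prime_iff_eq hup (hP u' (hP₁ hu')).1).1 h
      exact (mem_sdiff.1 hu).2 (this ▸ hu')
    · have := (Nat.prime_dvd_prime_iff_eq hup (hP v' (hP₁ hv')).1).1 h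
      exact (mem_sdiff.1 hu).2 (this ▸ hv')
  refine ⟨S₁ ∪ S₂, ?_, ?_, ?_⟩
  · intro j hj
    rcases mem_union.1 hj with hj | hj
    · obtain ⟨u', hu', v', hv', hne', rfl⟩ := hS₁ j hj
      exact ⟨u', hP₁ hu', v', hP₁ hv', hne', rfl⟩
    · obtain ⟨u', hu', v', hv', hne', rfl⟩ := hS₂ j hj
      exact ⟨u', sdiff_subset hu', v', sdiff_subset hv', hne', rfl⟩
  · rw [card_union_of_disjoint hdisj]
    have : 2 * k ^ 2 * s = k ^ 2 * s + k ^ 2 * s := by ring
    omega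
  · rw [sum_union hdisj, hS₁s, hS₂s, hc]

/-- Primes in `(√X, X]`, larger than `B`. -/
def midPrimes (X B : ℕ) : Finset ℕ := (Icc 1 X).filter fun u => u.Prime ∧ X < u * u ∧ B < u

theorem card_midPrimes_ge (X B : ℕ) :
    Nat.primeCounting X ≤ (midPrimes X B).card + Nat.sqrt X + B := by
  have h1 : Nat.primesLE X ⊆ midPrimes X B ∪ (Icc 1 (Nat.sqrt X) ∪ Icc 1 B) := by
    intro u hu
    rw [Nat.mem_primesLE] at hu
    rw [mem_union, mem_union, midPrimes, mem_filter, mem_Icc, mem_Icc, mem_Icc]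
    have hu1 := hu.2.one_lt.le
    by_cases h2 : X < u * u
    · by_cases h3 : B < u
      · exact Or.inl ⟨⟨hu1, hu.1⟩, hu.2, h2, h3⟩
      · exact Or.inr (Or.inr ⟨hu1, by omega⟩)
    · exact Or.inr (Or.inl ⟨hu1, Nat.le_sqrt.2 (by omega)⟩)
  have h2 := card_le_card h1
  have h3 := card_union_le (midPrimes X B) (Icc 1 (Nat.sqrt X) ∪ Icc 1 B)
  have h4 := card_union_le (Icc 1 (Nat.sqrt X)) (Icc 1 B)
  rw [Nat.card_Icc, Nat.card_Icc] at h4
  rw [Nat.primesLE_card_eq_primeCounting] at h2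
  omega

theorem eventually_primes_ge : ∀ᶠ x : ℕ in atTop,
    0.5 * (x / Real.log x) ≤ (Nat.primeCounting x : ℝ) := by
  have hlog : Tendsto (fun x : ℕ => Real.log x) atTop atTop :=
    Real.tendsto_log_atTop.comp tendsto_natCast_atTop_atTop
  have hlittle : ∀ᶠ x : ℕ in atTop, Real.log x + 1 ≤ 0.09 * x := by
    have h1 := Real.isLittleO_log_id_atTop.bound (c := 0.04) (by norm_num)
    have h2 := (tendsto_natCast_atTop_atTop (R := ℝ)).eventually h1
    filter_upwards [h2, hlog.eventually_ge_atTop 0, eventually_ge_atTop 100] with x h3 h4 h5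
    have hx : (100 : ℝ) ≤ x := by exact_mod_cast h5
    simp only [id] at h3
    rw [Real.norm_of_nonneg h4, Real.norm_of_nonneg (by linarith)] at h3
    linarith
  filter_upwards [hlog.eventually_ge_atTop 1, hlittle, eventually_ge_atTop 2] with x h1 h2 h3
  have hx : (2 : ℝ) ≤ x := by exact_mod_cast h3
  have h4 := Chebyshev.pi_ge x
  have h6 : Real.log ((x : ℝ) + 1) ≤ Real.log x + 1 := by
    have : Real.log ((x : ℝ) + 1) ≤ Real.log (x * Real.exp 1) := by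
      refine Real.log_le_log (by linarith) ?_
      have := Real.add_one_le_exp (1 : ℝ)
      nlinarith
    rwa [Real.log_mul (by linarith) (Real.exp_pos 1).ne', Real.log_exp] at this
  have hl2 := Real.log_two_gt_d9
  refine le_trans ?_ h4
  rw [le_div_iff₀ (by linarith), mul_assoc, div_mul_cancel₀ _ (by linarith)]
  nlinarith

theorem eventually_midPrimes (k B : ℕ) (hk : 1 ≤ k) : ∀ᶠ X : ℕ in atTop,
    (64 * k ^ 2 : ℝ) * (X : ℝ) ^ (1 - 1 / (8 * k : ℝ)) ≤ (midPrimes X B).card := by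
  have hk' : (1 : ℝ) ≤ k := by exact_mod_cast hk
  set a : ℝ := 1 / (8 * k) with ha
  have ha0 : 0 < a := by positivity
  have ha1 : a ≤ 1 / 8 := by
    rw [ha]; apply one_div_le_one_div_of_le (by norm_num); linarith
  have hcast := tendsto_natCast_atTop_atTop (R := ℝ)
  have hl := (isLittleO_log_rpow_atTop ha0).bound
    (c := 1 / (2 * (64 * k ^ 2 + 2))) (by positivity)
  have hB := (tendsto_rpow_atTop (show 0 < 1 - a by linarith)).eventually_ge_atTop (B : ℝ)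
  filter_upwards [hcast.eventually hl, hcast.eventually hB, eventually_primes_ge,
    eventually_ge_atTop 3] with X h1 h2 h3 h4
  have hX : (3 : ℝ) ≤ X := by exact_mod_cast h4
  have hlogpos : 0 < Real.log X := Real.log_pos (by linarith)
  have hXa : (0 : ℝ) < (X : ℝ) ^ a := by positivity
  rw [Real.norm_of_nonneg hlogpos.le, Real.norm_of_nonneg hXa.le] at h1
  have hsplit : (X : ℝ) ^ (1 - a) * (X : ℝ) ^ a = X := by
    rw [← Real.rpow_add (by linarith)]; simp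
  have hXb : (0 : ℝ) < (X : ℝ) ^ (1 - a) := by positivity
  have h5 : (64 * k ^ 2 + 2 : ℝ) * (X : ℝ) ^ (1 - a) ≤ 0.5 * (X / Real.log X) := by
    rw [← mul_div_assoc, le_div_iff₀ hlogpos]
    have h6 : (2 * (64 * k ^ 2 + 2) : ℝ) * Real.log X ≤ (X : ℝ) ^ a := by
      rw [one_div, inv_mul_eq_div, le_div_iff₀ (by positivity)] at h1
      linarith
    calc (64 * k ^ 2 + 2 : ℝ) * (X : ℝ) ^ (1 - a) * Real.log X
        = 0.5 * ((X : ℝ) ^ (1 - a) * ((2 * (64 * k ^ 2 + 2) : ℝ) * Real.log X)) := by ring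
      _ ≤ 0.5 * ((X : ℝ) ^ (1 - a) * (X : ℝ) ^ a) := by gcongr
      _ = 0.5 * X := by rw [hsplit]
  have h7 : (Nat.sqrt X : ℝ) ≤ (X : ℝ) ^ (1 - a) := by
    have h8 : (Nat.sqrt X : ℝ) ≤ Real.sqrt X := Real.nat_sqrt_le_real_sqrt
    refine h8.trans ?_
    rw [Real.sqrt_eq_rpow]
    exact Real.rpow_le_rpow_of_exponent_le (by linarith) (by linarith)
  have h9 : (Nat.primeCounting X : ℝ) ≤ (midPrimes X B).card + Nat.sqrt X + B := by
    exact_mod_cast card_midPrimes_ge X B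
  linarith

theorem covering (k B : ℕ) (hk : 1 ≤ k) : ∃ p₀ : ℕ, ∀ p : ℕ, p₀ ≤ p → p.Prime →
    ∃ X : ℕ, k * X ^ (2 * k - 1) < p ∧ p ≤ k * (2 * X) ^ (2 * k - 1) ∧ X < p ∧
      ∀ c : ZMod p, ∃ S : Finset ℕ,
        (∀ j ∈ S, ∃ u v : ℕ, u.Prime ∧ v.Prime ∧ u ≠ v ∧ B < u ∧ B < v ∧ u ≤ X ∧ v ≤ X ∧
          X < u * u ∧ X < v * v ∧ j = u * v) ∧
        S.card ≤ 8 * k ^ 3 ∧ ∑ j ∈ S, (j : ZMod p)⁻¹ = c := by
  obtain ⟨X₀, hX₀⟩ := eventually_atTop.1 (eventually_midPrimes k B hk)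
  have hkR : (1 : ℝ) ≤ k := by exact_mod_cast hk
  set X₁ := max (max X₀ 2) (max (k * 64 ^ k) ((2 * k) ^ 4)) with hX₁
  refine ⟨k * (X₁ + 1) ^ (2 * k - 1) + 3, fun p hp hpp => ?_⟩
  have : Fact p.Prime := ⟨hpp⟩
  set X := Nat.findGreatest (fun X => k * X ^ (2 * k - 1) < p) p with hXdef
  have hspec : k * X ^ (2 * k - 1) < p := by
    refine Nat.findGreatest_spec (P := fun X => k * X ^ (2 * k - 1) < p) (Nat.zero_le p) ?_
    rw [zero_pow (by omega)]
    simpa using hpp.pos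
  have hX1 : X₁ ≤ X := by
    refine Nat.le_findGreatest ?_ ?_
    · have h1 : X₁ + 1 ≤ k * (X₁ + 1) ^ (2 * k - 1) := by
        calc X₁ + 1 = 1 * (X₁ + 1) ^ 1 := by ring
          _ ≤ _ := Nat.mul_le_mul hk (Nat.pow_le_pow_right (by omega) (by omega))
      omega
    · have : k * X₁ ^ (2 * k - 1) ≤ k * (X₁ + 1) ^ (2 * k - 1) :=
        Nat.mul_le_mul_left _ (Nat.pow_le_pow_left (by omega) _)
      omega
  have hX2 : 2 ≤ X := (le_max_right X₀ 2).trans ((le_max_left _ _).trans hX1)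
  have hXp : X < p := by
    calc X = 1 * X ^ 1 := by ring
      _ ≤ k * X ^ (2 * k - 1) := Nat.mul_le_mul hk (Nat.pow_le_pow_right (by omega) (by omega))
      _ < p := hspec
  have hnext : p ≤ k * (X + 1) ^ (2 * k - 1) := by
    have := Nat.findGreatest_is_greatest (P := fun X => k * X ^ (2 * k - 1) < p) (n := p)
      (k := X + 1) (by omega) (by omega)
    simpa using this
  have hnext2 : p ≤ k * (2 * X) ^ (2 * k - 1) :=
    hnext.trans (Nat.mul_le_mul_left _ (Nat.pow_le_pow_left (by omega) _))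
  refine ⟨X, hspec, hnext2, hXp, fun c => ?_⟩
  set P := midPrimes X B with hP
  have hPc := hX₀ X ((le_max_left X₀ 2).trans ((le_max_left _ _).trans hX1))
  rw [← hP] at hPc
  set s := 4 * k with hs
  set m := P.card / (16 * k) with hm
  set g := Nat.sqrt X with hg
  have hXR : (2 : ℝ) ≤ X := by exact_mod_cast hX2
  set Z : ℝ := (X : ℝ) ^ (1 - 1 / (8 * k : ℝ)) with hZ
  have hZ1 : 1 ≤ Z := by
    refine Real.one_le_rpow (by linarith) ?_
    have : 1 / (8 * k : ℝ) ≤ 1 / 8 := by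
      apply one_div_le_one_div_of_le (by norm_num); linarith
    linarith
  -- m is large
  have hmge : 2 * k * Z ≤ (m + 1 - k : ℕ) := by
    have h1 : P.card < 16 * k * (m + 1) := by
      rw [hm, mul_comm]
      exact Nat.lt_mul_of_div_lt (Nat.lt_succ_self _) (by omega)
    have h2 : (P.card : ℝ) < 16 * k * (m + 1) := by exact_mod_cast h1
    have h3 : (4 * k : ℝ) * Z < m + 1 := by
      have h4 : (64 * k ^ 2 : ℝ) * Z < 16 * k * (m + 1) := hPc.trans_lt h2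
      have h5 : (16 * k : ℝ) * ((4 * k : ℝ) * Z) < 16 * k * (m + 1) := by
        calc (16 * k : ℝ) * ((4 * k : ℝ) * Z) = (64 * k ^ 2 : ℝ) * Z := by ring
          _ < _ := h4
      exact lt_of_mul_lt_mul_left h5 (by positivity)
    have h4 : k ≤ m + 1 := by
      have : (k : ℝ) ≤ m + 1 := by nlinarith
      exact_mod_cast this
    rw [Nat.cast_sub h4]
    push_cast
    nlinarith
  have hchoose : (2 * Z) ^ k ≤ (m.choose k : ℝ) := by
    have h1 : (((m + 1 - k : ℕ) : ℝ)) ^ k ≤ (m.choose k : ℝ) * (k.factorial : ℝ) := by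
      have h2 : (m + 1 - k) ^ k ≤ m.choose k * k.factorial := by
        rw [mul_comm, ← Nat.descFactorial_eq_factorial_mul_choose]
        exact Nat.pow_sub_le_descFactorial m k
      exact_mod_cast h2
    have h2 : (k.factorial : ℝ) ≤ (k : ℝ) ^ k := by exact_mod_cast Nat.factorial_le_pow k
    have h3 : (2 * k * Z) ^ k ≤ (m.choose k : ℝ) * (k : ℝ) ^ k := by
      calc (2 * k * Z) ^ k ≤ (((m + 1 - k : ℕ) : ℝ)) ^ k := by gcongr
        _ ≤ _ := h1
        _ ≤ _ := by gcongr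
    have h4 : (2 * k * Z) ^ k = (2 * Z) ^ k * (k : ℝ) ^ k := by rw [← mul_pow]; ring
    rw [h4] at h3
    exact le_of_mul_le_mul_right h3 (by positivity)
  have hgX : (g : ℝ) ≤ (X : ℝ) ^ (1 / 2 : ℝ) := by
    rw [← Real.sqrt_eq_rpow]; exact Real.nat_sqrt_le_real_sqrt
  have hmain : 4 * p * g ≤ (m.choose k) ^ 2 := by
    have h1 : ((2 * Z) ^ k) ^ 2 ≤ (m.choose k : ℝ) ^ 2 := by gcongr
    have h2 : ((2 * Z) ^ k) ^ 2 = 4 ^ k * (X : ℝ) ^ (2 * k - 1 / 4 : ℝ) := by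
      rw [mul_pow, mul_pow, ← pow_mul, ← pow_mul, mul_comm k 2, pow_mul]
      norm_num
      rw [hZ, ← Real.rpow_mul_natCast (by linarith)]
      congr 1
      push_cast
      field_simp
      ring
    have h3 : (p : ℝ) ≤ k * (2 * X) ^ (2 * k - 1) := by exact_mod_cast hnext2
    have h4 : ((2 * X : ℝ)) ^ (2 * k - 1) = 4 ^ k / 2 * (X : ℝ) ^ (2 * k - 1 : ℝ) := by
      rw [mul_pow]
      congr 1
      · have : (2 : ℝ) ^ (2 * k - 1) * 2 = 4 ^ k := by
          rw [← pow_succ, Nat.sub_add_cancel (by omega), pow_mul]; norm_num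
        linarith
      · rw [← Real.rpow_natCast]
        congr 1
        rw [Nat.cast_sub (by omega)]
        push_cast; ring
    have h5 : (2 * k : ℝ) ≤ (X : ℝ) ^ (1 / 4 : ℝ) := by
      have h6 : (2 * k) ^ 4 ≤ X :=
        (le_max_right (k * 64 ^ k) _).trans ((le_max_right _ _).trans hX1)
      have h7 : ((2 * k : ℝ)) ^ 4 ≤ X := by exact_mod_cast h6
      calc (2 * k : ℝ) = (((2 * k : ℝ)) ^ 4) ^ (1 / 4 : ℝ) := by
            rw [← Real.rpow_natCast, ← Real.rpow_mul (by positivity)]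
            norm_num
        _ ≤ _ := Real.rpow_le_rpow (by positivity) h7 (by norm_num)
    have h8 : (4 * p * g : ℝ) ≤ 4 ^ k * (X : ℝ) ^ (2 * k - 1 / 4 : ℝ) := by
      calc (4 * p * g : ℝ) ≤ 4 * (k * (4 ^ k / 2 * (X : ℝ) ^ (2 * k - 1 : ℝ))) *
            (X : ℝ) ^ (1 / 2 : ℝ) := by
            rw [← h4]; gcongr
        _ = 4 ^ k * ((2 * k) * ((X : ℝ) ^ (2 * k - 1 : ℝ) * (X : ℝ) ^ (1 / 2 : ℝ))) := by ring
        _ ≤ 4 ^ k * ((X : ℝ) ^ (1 / 4 : ℝ) *
            ((X : ℝ) ^ (2 * k - 1 : ℝ) * (X : ℝ) ^ (1 / 2 : ℝ))) := by gcongr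
        _ = 4 ^ k * (X : ℝ) ^ (2 * k - 1 / 4 : ℝ) := by
            rw [← Real.rpow_add (by linarith), ← Real.rpow_add (by linarith)]
            congr 2
            ring
    have h9 : ((4 * p * g : ℕ) : ℝ) ≤ (((m.choose k) ^ 2 : ℕ) : ℝ) := by
      push_cast
      rw [h2] at h1
      exact h8.trans h1
    exact_mod_cast h9
  have hgs : p ≤ g ^ s := by
    have h1 : X ≤ 4 * g ^ 2 := by
      have := Nat.lt_succ_sqrt X
      have hg1 : 1 ≤ g := Nat.sqrt_pos.2 (by omega)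
      have : X < (g + 1) * (g + 1) := by simpa [Nat.succ_eq_add_one] using Nat.lt_succ_sqrt X
      nlinarith
    have h2 : X ^ (2 * k) ≤ 16 ^ k * g ^ s := by
      calc X ^ (2 * k) ≤ (4 * g ^ 2) ^ (2 * k) := Nat.pow_le_pow_left h1 _
        _ = 16 ^ k * g ^ s := by
          rw [mul_pow, ← pow_mul, pow_mul, hs]
          norm_num
          congr 1
          ring
    have h3 : p * 16 ^ k ≤ X ^ (2 * k) := by
      have h4 : k * 64 ^ k ≤ X :=
        (le_max_left (k * 64 ^ k) _).trans ((le_max_right _ _).trans hX1)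
      calc p * 16 ^ k ≤ (k * (2 * X) ^ (2 * k - 1)) * 16 ^ k := Nat.mul_le_mul_right _ hnext2
        _ ≤ (k * (2 * (2 * X) ^ (2 * k - 1))) * 16 ^ k := by
            gcongr; omega
        _ = (k * 64 ^ k) * X ^ (2 * k - 1) := by
            have e1 : 2 * (2 * X) ^ (2 * k - 1) = 4 ^ k * X ^ (2 * k - 1) := by
              rw [mul_pow, ← mul_assoc, mul_comm 2 (2 ^ _), ← pow_succ,
                Nat.sub_add_cancel (by omega), pow_mul]
              norm_num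
            rw [e1]
            have e2 : (64 : ℕ) ^ k = 4 ^ k * 16 ^ k := by rw [← mul_pow]; norm_num
            rw [e2]; ring_nf
        _ ≤ X * X ^ (2 * k - 1) := Nat.mul_le_mul_right _ h4
        _ = X ^ (2 * k) := by
            rw [← pow_succ']; congr 1; omega
    have h5 : p * 16 ^ k ≤ g ^ s * 16 ^ k := by
      rw [mul_comm (g ^ s)]; exact h3.trans h2
    exact Nat.le_of_mul_le_mul_right h5 (by positivity)
  have hcard : 4 * m * s ≤ P.card := by
    have := Nat.div_mul_le_self P.card (16 * k)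
    rw [← hm] at this
    calc 4 * m * s = m * (16 * k) := by rw [hs]; ring
      _ ≤ _ := this
  have hPm : ∀ u ∈ P, u.Prime ∧ X < u * u ∧ B < u ∧ u ≤ X := by
    intro u hu
    rw [hP, midPrimes, mem_filter, mem_Icc] at hu
    exact ⟨hu.2.1, hu.2.2.1, hu.2.2.2, hu.1.2⟩
  obtain ⟨S, hS, hSc, hSs⟩ := repr_all (by omega) hspec hXp hmain hgs P
    (fun u hu => ⟨(hPm u hu).1, (hPm u hu).2.2.2⟩) hcard c
  refine ⟨S, ?_, ?_, hSs⟩
  · intro j hj
    obtain ⟨u, hu, v, hv, hne, rfl⟩ := hS j hj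
    have h1 := hPm u hu
    have h2 := hPm v hv
    exact ⟨u, v, h1.1, h2.1, hne, h1.2.2.1, h2.2.2.1, h1.2.2.2, h2.2.2.2, h1.2.1, h2.2.1, rfl⟩
  · refine hSc.trans (le_of_eq ?_)
    rw [hs]; ring

end Pool.Agent.Helper24.UF
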